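import Pool.Agent.TH966.CC.Main
import Pool.Agent.Results.MP_b3e76a_pr.BoundaryTouching

set_option autoImplicit false

/-!
# Capacities of boundary sets and the FK interface with `q = 1`: definitions and translation

The model (`Vertex`, `Edge`, `Conn`, `rect`, `bdry`, `wired`, `interface`, `prob`, `TouchFree`) is
that of `Pool.Agent.Results.MP_b3e76a_pr.BoundaryTouching`; the estimates are those of
`Pool.Agent.TH966.CC`.
-/

namespace Pool.Agent.Q216.CC

open Finset
open Pool.Agent.Results.MP_b3e76a_pr.BoundaryTouching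

/-- The energy of a weight `v` on a set `S` of points of a side of length `L`, for the kernel
`((L + 1) / (|x - y| + 1)) ^ (1/3)`. -/
noncomputable def energy (L : ℕ) (S : Finset ℤ) (v : ℤ → ℝ) : ℝ :=
  ∑ x ∈ S, ∑ y ∈ S, v x * v y * (((L : ℝ) + 1) / (((|x - y| : ℤ) : ℝ) + 1)) ^ ((1 : ℝ) / 3)

/-- The capacity of `S`: the supremum of the reciprocals of the energies of the probability
weights on `S` (`0` for the empty set). -/
noncomputable def capacity (L : ℕ) (S : Finset ℤ) : ℝ :=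
  sSup {r : ℝ | ∃ v : ℤ → ℝ, (∀ x ∈ S, 0 ≤ v x) ∧ ∑ x ∈ S, v x = 1 ∧ r = 1 / energy L S v}

/-- In the rectangle `[0, m] × [0, n]` with the upper side wired and the other three sides free,
the interface touches the boundary at one of the points `(x, 0)`, `x ∈ S`, of the lower side.
(The boundary vertices with the numbers `-(m + n)`, ..., `-n` are those of the upper side.) -/
def TouchSet (m n : ℕ) (S : Finset ℤ) (F : Finset Edge) : Prop :=
  ∃ x ∈ S, TouchFree m n (-((m : ℤ) + n)) (-(n : ℤ)) x x F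

/-- Some `(0, s)`, `s ∈ S`, is joined to some `(m, t)`, `t ∈ T`, by open edges of the rectangle
`[0, m] × [0, n]`. -/
def JoinSets (m : ℕ) (S T : Finset ℤ) (F : Finset Edge) : Prop :=
  ∃ s ∈ S, ∃ t ∈ T, Conn (↑F : Set Edge) ((0 : ℤ), s) ((m : ℤ), t)

/-- The left and the right side of the rectangle `[0, m] × [0, n]` are joined. -/
def Crossed (m n : ℕ) (F : Finset Edge) : Prop :=
  ∃ s t : ℤ, (0 ≤ s ∧ s ≤ n) ∧ (0 ≤ t ∧ t ≤ n) ∧ Conn (↑F : Set Edge) ((0 : ℤ), s) ((m : ℤ), t)

theorem energy_eq (L : ℕ) (S : Finset ℤ) (v : ℤ → ℝ) :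
    energy L S v = Pool.Agent.TH966.CC.en (L : ℤ) S v := by
  unfold energy Pool.Agent.TH966.CC.en
  refine Finset.sum_congr rfl (fun x _ => Finset.sum_congr rfl (fun y _ => ?_))
  congr 1
  unfold Pool.Agent.TH966.CC.kern Pool.Agent.TH966.CC.q H934E.th
  have h1 : (0 : ℝ) ≤ (L : ℝ) + 1 := by positivity
  have h2 : (0 : ℝ) < ((|x - y| : ℤ) : ℝ) + 1 := by
    have : (0 : ℝ) ≤ ((|x - y| : ℤ) : ℝ) := by exact_mod_cast abs_nonneg (x - y)
    linarith
  rw [Real.div_rpow h1 h2.le]
  push_cast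
  push_cast at h2
  have hA : (0 : ℝ) < ((L : ℝ) + 1) ^ ((1 : ℝ) / 3) := by positivity
  have hB : (0 : ℝ) < (|(x : ℝ) - y| + 1) ^ ((1 : ℝ) / 3) := by positivity
  field_simp

theorem capacity_eq (L : ℕ) (S : Finset ℤ) : capacity L S = Pool.Agent.TH966.CC.Cap (L : ℤ) S := by
  unfold capacity Pool.Agent.TH966.CC.Cap Pool.Agent.TH966.CC.CS
  simp only [energy_eq]

theorem prob_eq' (m n : ℕ) (E E' : Finset Edge → Prop)
    (h : ∀ F, F ⊆ H974.RE 0 m 0 n → (E F ↔ E' F)) :
    prob m n E = H974.Pr Pool.Agent.H160R2.CV.P (H974.RE 0 m 0 n) E' := by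
  have := prob_eq m n E E' h
  unfold H731C.P2 at this
  exact this

end Pool.Agent.Q216.CC
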