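import Pool.Agent.TH966.CC.Main

/-!
Several boundary sets at macroscopic distance from each other: the probability that all of them
are joined to the opposite side is comparable to the product of the capacities.
-/

set_option autoImplicit false
set_option maxHeartbeats 1000000

namespace Pool.Agent.Q216.CC.Multi

open H974 H973 H934E Finset
open Pool.Agent.TH966.GB Pool.Agent.H160R2.CV
open Pool.Agent.H160R2.CV.Quad
open Pool.Agent.TH966.CC

/-- Harris for finitely many events. -/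
theorem harris_prod {ι : Type*} (S : Finset Edg) (s : Finset ι) (A : ι → Finset Edg → Prop)
    (hA : ∀ i ∈ s, IncrE S (A i)) :
    ∏ i ∈ s, Pr P S (A i) ≤ Pr P S (fun F => ∀ i ∈ s, A i F) := by
  classical
  induction s using Finset.induction_on with
  | empty =>
    rw [Finset.prod_empty, Pr_true S (fun F _ => by simp)]
  | @insert a s ha ih =>
    rw [Finset.prod_insert ha]
    have h1 := ih (fun i hi => hA i (Finset.mem_insert_of_mem hi))
    have h2 : IncrE S (fun F => ∀ i ∈ s, A i F) := fun F G hFG hG hF i hi =>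
      hA i (Finset.mem_insert_of_mem hi) F G hFG hG (hF i hi)
    have h3 := Pr_harris okP (hA a (Finset.mem_insert_self _ _)) h2
    have h4 : Pr P S (fun F => ∀ i ∈ insert a s, A i F) =
        Pr P S (fun F => A a F ∧ ∀ i ∈ s, A i F) :=
      Pr_congr (fun F _ => by rw [Finset.forall_mem_insert])
    rw [h4]
    exact (mul_le_mul_of_nonneg_left h1 (Pr_nonneg okP _ _)).trans h3

theorem loc_all {ι : Type*} [DecidableEq ι] (s : Finset ι) (T : ι → Finset Edg)
    (A : ι → Finset Edg → Prop) (hl : ∀ i ∈ s, LocE (T i) (A i)) :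
    LocE (s.biUnion T) (fun F => ∀ i ∈ s, A i F) := by
  intro F
  refine forall₂_congr (fun i hi => ?_)
  rw [hl i hi F, hl i hi (F ∩ s.biUnion T)]
  have e1 : F ∩ s.biUnion T ∩ T i = F ∩ T i := by
    ext e
    simp only [Finset.mem_inter, Finset.mem_biUnion]
    constructor
    · rintro ⟨⟨h1, _⟩, h2⟩
      exact ⟨h1, h2⟩
    · rintro ⟨h1, h2⟩
      exact ⟨⟨h1, i, hi, h2⟩, h2⟩
  rw [e1]

/-- Independence of finitely many increasing local events. -/
theorem indep_prod {ι : Type*} [DecidableEq ι] (s : Finset ι) (T : ι → Finset Edg)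
    (A : ι → Finset Edg → Prop) (hd : ∀ i ∈ s, ∀ j ∈ s, i ≠ j → Disjoint (T i) (T j))
    (hA : ∀ i ∈ s, IncA (A i)) (hl : ∀ i ∈ s, LocE (T i) (A i)) (S : Finset Edg) :
    Pr P S (fun F => ∀ i ∈ s, A i F) ≤ ∏ i ∈ s, Pr P (T i) (A i) := by
  induction s using Finset.induction_on generalizing S with
  | empty =>
    rw [Finset.prod_empty]
    exact Pr_le_one okP _ _
  | @insert a s ha ih =>
    rw [Finset.prod_insert ha]
    have h1 := ih (fun i hi j hj => hd i (Finset.mem_insert_of_mem hi) j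
      (Finset.mem_insert_of_mem hj)) (fun i hi => hA i (Finset.mem_insert_of_mem hi))
      (fun i hi => hl i (Finset.mem_insert_of_mem hi)) (s.biUnion T)
    have h4 : Pr P S (fun F => ∀ i ∈ insert a s, A i F) =
        Pr P S (fun F => A a F ∧ ∀ i ∈ s, A i F) :=
      Pr_congr (fun F _ => by rw [Finset.forall_mem_insert])
    have hdis : Disjoint (T a) (s.biUnion T) := by
      rw [Finset.disjoint_biUnion_right]
      intro i hi
      exact hd a (Finset.mem_insert_self _ _) i (Finset.mem_insert_of_mem hi)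
        (fun h => ha (h ▸ hi))
    have h5 := indep2 S (T a) (s.biUnion T) hdis (hA a (Finset.mem_insert_self _ _))
      (fun F G hFG hF i hi => hA i (Finset.mem_insert_of_mem hi) F G hFG (hF i hi))
      (hl a (Finset.mem_insert_self _ _))
      (loc_all s T A (fun i hi => hl i (Finset.mem_insert_of_mem hi)))
    rw [h4]
    exact h5.trans (mul_le_mul_of_nonneg_left h1 (Pr_nonneg okP _ _))

/-- Union bound. -/
theorem union_bound {ι : Type*} (S : Finset Edg) (s : Finset ι) (A : ι → Finset Edg → Prop) :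
    Pr P S (fun F => ∃ i ∈ s, A i F) ≤ ∑ i ∈ s, Pr P S (A i) := by
  classical
  induction s using Finset.induction_on with
  | empty =>
    rw [Finset.sum_empty]
    unfold Pr
    rw [Ex_congr (g := fun _ => 0) (fun F _ => ind_not_of (by simp)), Ex_const]
  | @insert a s ha ih =>
    rw [Finset.sum_insert ha]
    have h4 : Pr P S (fun F => ∃ i ∈ insert a s, A i F) =
        Pr P S (fun F => A a F ∨ ∃ i ∈ s, A i F) :=
      Pr_congr (fun F _ => by rw [Finset.exists_mem_insert])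
    rw [h4]
    exact (Pr_or_le okP _ _ _).trans (by linarith)

/-- Some `(x, 0)`, `x ∈ T`, is joined to the boundary of the half-box of radius `n` around `k`. -/
def ArS (k n : ℤ) (T : Finset ℤ) (F : Finset Edg) : Prop :=
  ∃ x ∈ T, ∃ y : Vtx, (y.1 ≤ k - n ∨ k + n ≤ y.1 ∨ n ≤ y.2) ∧
    Reach (↑F ∩ ↑(RE (k - n) (k + n) 0 n)) (x, 0) y

theorem ArS_inc (k n : ℤ) (T : Finset ℤ) : IncA (ArS k n T) := by
  rintro F G h1 ⟨x, hx, y, hy, hr⟩
  exact ⟨x, hx, y, hy, hr.mono (Set.inter_subset_inter_left _ (by exact_mod_cast h1))⟩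

theorem ArS_loc (k n : ℤ) (T : Finset ℤ) : LocE (RE (k - n) (k + n) 0 n) (ArS k n T) := by
  intro F
  unfold ArS
  rw [coe_inter_eq (Finset.Subset.refl _)]

theorem Hit_ArS {b m k R : ℤ} {T : Finset ℤ} {F : Finset Edg} (hR : 1 ≤ R) (hm : R ≤ m)
    (hT : ∀ x ∈ T, k - R ≤ x ∧ x ≤ k + R) (h : Hit b m T F) : ArS k R T F := by
  obtain ⟨x, hx, t, _, h2⟩ := h
  have hxx := hT x hx
  obtain ⟨w, h3, _, h4⟩ := exitG (k := k) hR
    (G := ↑F ∩ ↑(RE 0 b 0 m)) (fun e he _ => RE_nonneg (Finset.mem_coe.mp he.2))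
    (u := (x, 0)) (by unfold inR; simp only; omega) h2 (by simp only; omega)
  exact ⟨x, hx, w, h3, h4.mono (by rintro e ⟨⟨he1, _⟩, he2⟩; exact ⟨he1, he2⟩)⟩

/-- The arm of a small piece is extended to the upper side at a bounded cost. -/
theorem ArS_low (κ : ℕ) : ∃ c : ℝ, 0 < c ∧ ∀ b m k r : ℤ, 1 ≤ r →
    b ≤ 18 * κ * r → m ≤ κ * b → 3 * r ≤ m → 3 * r ≤ k → k + 3 * r ≤ b → ∀ T : Finset ℤ,
    (∀ x ∈ T, k - r ≤ x ∧ x ≤ k + r) →
    c * Pr P (RE 0 b 0 m) (ArS k (3 * r) T) ≤ Pr P (RE 0 b 0 m) (Hit b m T) := by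
  obtain ⟨c2, hc2, hrsw⟩ := rsw_all (9 * κ * κ)
  have hkp := kp_pos
  refine ⟨kp * c2, by positivity, fun b m k n hn hbn hmb hnm hk1 hk2 T hT => ?_⟩
  have hκ0 : (0 : ℤ) ≤ κ := by positivity
  have hsub : RE (k - 3 * n) (k + 3 * n) 0 (3 * n) ⊆ RE 0 b 0 m :=
    RE_subset (by omega) (by omega) le_rfl (by omega)
  have hsub2 : TBE (k - n) (k + n) 0 m ⊆ RE 0 b 0 m :=
    TBE_subset_RE.trans (RE_subset (by omega) (by omega) le_rfl le_rfl)
  have e2 : kp ≤ Pr P (RE 0 b 0 m) (HC k n (3 * n)) := pr_HC (by omega) hsub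
  have e3 : c2 ≤ Pr P (RE 0 b 0 m) (TBc (k - n) (k + n) 0 m) := by
    have h1 : Pr P (RE 0 b 0 m) (TBc (k - n) (k + n) 0 m) =
        hh (1 / 2) (m - 0) (k + n - (k - n)) := pr_TBc (1 / 2) hsub2
    rw [h1]
    apply hrsw
    · omega
    · omega
    · rw [sub_zero, show k + n - (k - n) = 2 * n by ring]
      push_cast
      have h3 : (κ : ℤ) * b ≤ κ * (18 * κ * n) := mul_le_mul_of_nonneg_left hbn hκ0
      calc m ≤ κ * b := hmb
        _ ≤ κ * (18 * κ * n) := h3
        _ = 9 * κ * κ * (2 * n) := by ring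
  have i1 : IncrE (RE 0 b 0 m) (ArS k (3 * n) T) := fun F G h1 _ h => ArS_inc _ _ _ F G h1 h
  have i2 : IncrE (RE 0 b 0 m) (HC k n (3 * n)) := HC_incr _ _ _ _
  have i3 : IncrE (RE 0 b 0 m) (TBc (k - n) (k + n) 0 m) := TBc_incr _ _ _ _ _
  have j1 : IncrE (RE 0 b 0 m) (fun F => ArS k (3 * n) T F ∧ HC k n (3 * n) F) :=
    fun F G h1 h2 hF => ⟨i1 F G h1 h2 hF.1, i2 F G h1 h2 hF.2⟩
  have q1 := Pr_harris okP i1 i2
  have q2 := Pr_harris okP j1 i3
  have hdet : Pr P (RE 0 b 0 m) (fun F => (ArS k (3 * n) T F ∧ HC k n (3 * n) F) ∧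
      TBc (k - n) (k + n) 0 m F) ≤ Pr P (RE 0 b 0 m) (Hit b m T) := by
    refine Pr_mono okP ?_
    rintro F hF ⟨⟨hA, hH⟩, hTB⟩
    obtain ⟨x, hx, y, y1, y2⟩ := hA
    obtain ⟨t, t', t1, t2, t3⟩ := hTB
    have hxx := hT x hx
    obtain ⟨l, _, _, hz⟩ := hc_meet (by omega) (by omega) hH
    have r1 := hz (x, 0) y (by unfold inR; simp only; omega) y1 y2
    have t3' : Reach (↑F ∩ ↑(RE 0 b 0 m)) (t, 0) (t', m) :=
      t3.mono (Set.inter_subset_inter_right _ (by exact_mod_cast hsub2))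
    obtain ⟨w, w1, _, w2⟩ := exitG (k := k) (R := 3 * n) (by omega)
      (G := ↑F ∩ ↑(RE 0 b 0 m)) (fun e he _ => RE_nonneg (Finset.mem_coe.mp he.2))
      (u := (t, 0)) (v := (t', m)) (by unfold inR; simp only; omega) t3' (by simp only; omega)
    have r2 := hz (t, 0) w (by unfold inR; simp only; omega) w1
      (w2.mono (by rintro e ⟨⟨he1, _⟩, he2⟩; exact ⟨he1, he2⟩))
    have hs : (↑F : Set Edg) ∩ ↑(RE (k - 3 * n) (k + 3 * n) 0 (3 * n)) ⊆
        ↑F ∩ ↑(RE 0 b 0 m) := Set.inter_subset_inter_right _ (by exact_mod_cast hsub)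
    exact ⟨x, hx, t', by omega, ((r1.mono hs).trans (r2.symm.mono hs)).trans t3'⟩
  have hp0 : 0 ≤ Pr P (RE 0 b 0 m) (ArS k (3 * n) T) := Pr_nonneg okP _ _
  calc kp * c2 * Pr P (RE 0 b 0 m) (ArS k (3 * n) T)
      = Pr P (RE 0 b 0 m) (ArS k (3 * n) T) * kp * c2 := by ring
    _ ≤ Pr P (RE 0 b 0 m) (ArS k (3 * n) T) * Pr P (RE 0 b 0 m) (HC k n (3 * n)) *
        Pr P (RE 0 b 0 m) (TBc (k - n) (k + n) 0 m) := by
        apply mul_le_mul (mul_le_mul_of_nonneg_left e2 hp0) e3 hc2.le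
        exact mul_nonneg hp0 (Pr_nonneg okP _ _)
    _ ≤ Pr P (RE 0 b 0 m) (fun F => ArS k (3 * n) T F ∧ HC k n (3 * n) F) *
        Pr P (RE 0 b 0 m) (TBc (k - n) (k + n) 0 m) :=
        mul_le_mul_of_nonneg_right q1 (Pr_nonneg okP _ _)
    _ ≤ _ := q2.trans hdet

/-- The points of `S` in the cell with number `c`. -/
def cell (r : ℤ) (S : Finset ℤ) (c : ℤ) : Finset ℤ := S.filter (fun x => x / (2 * r) = c)

theorem cell_mem {r : ℤ} (hr : 1 ≤ r) {S : Finset ℤ} {c x : ℤ} (h : x ∈ cell r S c) :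
    x ∈ S ∧ (2 * r * c + r) - r ≤ x ∧ x ≤ (2 * r * c + r) + r := by
  unfold cell at h
  rw [Finset.mem_filter] at h
  obtain ⟨h1, h2⟩ := h
  have h3 := Int.emod_add_mul_ediv x (2 * r)
  have h4 := Int.emod_nonneg x (show (2 * r : ℤ) ≠ 0 by omega)
  have h5 := Int.emod_lt_of_pos x (show (0 : ℤ) < 2 * r by omega)
  rw [h2] at h3
  exact ⟨h1, by linarith, by linarith⟩

theorem Hit_mono {b m : ℤ} {S T : Finset ℤ} (h : S ⊆ T) {F : Finset Edg} (hF : Hit b m S F) :
    Hit b m T F := by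
  obtain ⟨x, hx, h1⟩ := hF
  exact ⟨x, h hx, h1⟩

/-- **Several sets, lower bound.** -/
theorem multi_low (κ : ℤ) (hκ : 1 ≤ κ) (k : ℕ) : ∃ c : ℝ, 0 < c ∧ ∀ b m : ℤ, 1 ≤ b →
    b ≤ κ * m → m ≤ κ * b → ∀ S : Fin k → Finset ℤ, (∀ i, ∀ x ∈ S i, Mid κ b x) →
    c * ∏ i, Cap b (S i) ≤ Pr P (RE 0 b 0 m) (fun F => ∀ i, Hit b m (S i) F) := by
  obtain ⟨c, C, hc, hC, h1⟩ := one_cap κ hκ
  refine ⟨c ^ k, by positivity, fun b m hb hbm hmb S hS => ?_⟩
  have h2 := harris_prod (RE 0 b 0 m) (Finset.univ : Finset (Fin k)) (fun i => Hit b m (S i))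
    (fun i _ => Hit_incr _ _ _ _)
  have h3 : c ^ k * ∏ i, Cap b (S i) = ∏ i : Fin k, (c * Cap b (S i)) := by
    rw [Finset.prod_mul_distrib, Finset.prod_const, Finset.card_univ, Fintype.card_fin]
  rw [h3]
  have h4 : ∏ i : Fin k, (c * Cap b (S i)) ≤ ∏ i : Fin k, Pr P (RE 0 b 0 m) (Hit b m (S i)) := by
    apply Finset.prod_le_prod
    · intro i _
      exact mul_nonneg hc.le (Cap_nonneg κ hκ (by omega) (hS i))
    · intro i _
      exact (h1 b m hb hbm hmb (S i) (hS i)).1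
  refine h4.trans (h2.trans (le_of_eq ?_))
  exact Pr_congr (fun F _ => by simp)

/-- **Several sets, upper bound.** -/
theorem multi_up (κ : ℕ) (hκ : 1 ≤ κ) (k : ℕ) : ∃ C : ℝ, 0 < C ∧ ∀ b m : ℤ, 1 ≤ b →
    b ≤ κ * m → m ≤ κ * b → ∀ S : Fin k → Finset ℤ, (∀ i, ∀ x ∈ S i, Mid κ b x) →
    (∀ i j, i ≠ j → ∀ x ∈ S i, ∀ y ∈ S j, b ≤ κ * |x - y|) →
    Pr P (RE 0 b 0 m) (fun F => ∀ i, Hit b m (S i) F) ≤ C * ∏ i, Cap b (S i) := by
  have hκ' : (1 : ℤ) ≤ κ := by exact_mod_cast hκ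
  obtain ⟨c, C, hc, hC, h1⟩ := one_cap κ hκ'
  obtain ⟨c0, hc0, h0⟩ := Cap_low κ hκ'
  obtain ⟨c3, hc3, h3⟩ := ArS_low κ
  have hq9 := q_pos (n := 9 * κ) (by omega)
  obtain ⟨A, hA⟩ : ∃ A : ℝ, A = (1 / (c0 * q (9 * κ))) ^ k := ⟨_, rfl⟩
  obtain ⟨B, hB⟩ : ∃ B : ℝ, B = (9 * κ + 1) ^ k * (C / c3) ^ k := ⟨_, rfl⟩
  have hA0 : 0 < A := by rw [hA]; positivity
  have hB0 : 0 < B := by rw [hB]; positivity
  refine ⟨A + B, by positivity, fun b m hb hbm hmb S hS hsep => ?_⟩
  have hcap : ∀ i, 0 ≤ Cap b (S i) := fun i => Cap_nonneg κ hκ' (by omega) (hS i)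
  have hX : 0 ≤ ∏ i, Cap b (S i) := Finset.prod_nonneg (fun i _ => hcap i)
  by_cases hne : ∀ i, (S i).Nonempty
  swap
  · push Not at hne
    obtain ⟨i, hi⟩ := hne
    have e : Pr P (RE 0 b 0 m) (fun F => ∀ i, Hit b m (S i) F) = 0 := by
      unfold Pr
      rw [Ex_congr (g := fun _ => 0) (fun F _ => ind_not_of (fun h => ?_)), Ex_const]
      obtain ⟨x, hx, _⟩ := h i
      rw [hi] at hx
      simp at hx
    rw [e]
    positivity
  rcases lt_or_ge b (9 * κ) with hb9 | hb9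
  · have g1 : (c0 * q (9 * κ)) ^ k ≤ ∏ i, Cap b (S i) := by
      have : (c0 * q (9 * κ)) ^ k = ∏ i : Fin k, (c0 * q (9 * κ)) := by
        rw [Finset.prod_const, Finset.card_univ, Fintype.card_fin]
      rw [this]
      apply Finset.prod_le_prod
      · intro i _
        positivity
      · intro i _
        refine le_trans ?_ (h0 b hb (S i) (hS i) (hne i))
        exact mul_le_mul_of_nonneg_left (q_anti (by omega) hb9.le) hc0.le
    calc Pr P (RE 0 b 0 m) (fun F => ∀ i, Hit b m (S i) F) ≤ 1 := Pr_le_one okP _ _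
      _ = A * (c0 * q (9 * κ)) ^ k := by
        rw [hA, ← mul_pow, one_div, inv_mul_cancel₀ (by positivity), one_pow]
      _ ≤ A * ∏ i, Cap b (S i) := mul_le_mul_of_nonneg_left g1 hA0.le
      _ ≤ (A + B) * ∏ i, Cap b (S i) := mul_le_mul_of_nonneg_right (by linarith) hX
  · obtain ⟨r, hr⟩ : ∃ r, r = b / (9 * κ) := ⟨_, rfl⟩
    have hr1 : 1 ≤ r := by
      rw [hr]
      exact (Int.le_ediv_iff_mul_le (by omega)).mpr (by linarith)
    have hrb : 9 * κ * r ≤ b := by rw [hr]; exact Int.mul_ediv_self_le (by omega)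
    have hbr : b ≤ 18 * κ * r := by
      have h5 := Int.lt_ediv_add_one_mul_self b (show (0 : ℤ) < 9 * κ by omega)
      rw [← hr] at h5
      nlinarith
    have hm9 : 9 * r ≤ m := by
      by_contra hcon
      push Not at hcon
      nlinarith
    obtain ⟨Φ, hΦ⟩ : ∃ Φ : Finset (Fin k → ℤ),
      Φ = Fintype.piFinset (fun _ : Fin k => Finset.Icc (0 : ℤ) (9 * κ)) := ⟨_, rfl⟩
    have hΦc : (Φ.card : ℝ) = (9 * κ + 1) ^ k := by
      rw [hΦ, Fintype.card_piFinset]
      simp only [Int.card_Icc, Finset.prod_const, Finset.card_univ, Fintype.card_fin]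
      have : ((9 * κ + 1 - 0 : ℤ).toNat) = 9 * κ + 1 := by omega
      rw [this]
      push_cast
      ring
    have s1 : Pr P (RE 0 b 0 m) (fun F => ∀ i, Hit b m (S i) F) ≤
        Pr P (RE 0 b 0 m) (fun F => ∃ f ∈ Φ, ∀ i, Hit b m (cell r (S i) (f i)) F) := by
      refine Pr_mono okP ?_
      intro F _ hF
      choose x hx hx2 using hF
      refine ⟨fun i => x i / (2 * r), ?_, fun i => ⟨x i, ?_, hx2 i⟩⟩
      · rw [hΦ, Fintype.mem_piFinset]
        intro i
        rw [Finset.mem_Icc]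
        have hp := (hS i (x i) (hx i)).pos hκ' (by omega)
        refine ⟨Int.ediv_nonneg hp.1 (by omega), ?_⟩
        apply Int.ediv_le_of_le_mul (by omega)
        calc x i ≤ b := hp.2
          _ ≤ 18 * κ * r := hbr
          _ = 9 * κ * (2 * r) := by ring
      · unfold cell
        rw [Finset.mem_filter]
        exact ⟨hx i, rfl⟩
    have s2 := union_bound (RE 0 b 0 m) Φ (fun f F => ∀ i, Hit b m (cell r (S i) (f i)) F)
    have s3 : ∀ f ∈ Φ, Pr P (RE 0 b 0 m) (fun F => ∀ i, Hit b m (cell r (S i) (f i)) F) ≤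
        (C / c3) ^ k * ∏ i, Cap b (S i) := by
      intro f _
      by_cases hne' : ∀ i, (cell r (S i) (f i)).Nonempty
      swap
      · push Not at hne'
        obtain ⟨i, hi⟩ := hne'
        have e : Pr P (RE 0 b 0 m) (fun F => ∀ i, Hit b m (cell r (S i) (f i)) F) = 0 := by
          unfold Pr
          rw [Ex_congr (g := fun _ => 0) (fun F _ => ind_not_of (fun h => ?_)), Ex_const]
          obtain ⟨x, hx, _⟩ := h i
          rw [hi] at hx
          simp at hx
        rw [e]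
        positivity
      obtain ⟨ce, hce⟩ : ∃ ce : Fin k → ℤ, ce = fun i => 2 * r * f i + r := ⟨_, rfl⟩
      have hmem : ∀ i, ∀ x ∈ cell r (S i) (f i), x ∈ S i ∧ ce i - r ≤ x ∧ x ≤ ce i + r := by
        intro i x hx
        rw [hce]
        exact cell_mem hr1 hx
      have hpos : ∀ i, 3 * r ≤ ce i ∧ ce i + 3 * r ≤ b := by
        intro i
        obtain ⟨x, hx⟩ := hne' i
        obtain ⟨g1, g2, g3⟩ := hmem i x hx
        obtain ⟨g4, g5⟩ := hS i x g1
        have g6 : 9 * r ≤ x := by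
          by_contra hcon
          push Not at hcon
          nlinarith
        have g7 : 9 * r ≤ b - x := by
          by_contra hcon
          push Not at hcon
          nlinarith
        omega
      have hfar : ∀ i j, i ≠ j → 7 * r ≤ |ce i - ce j| := by
        intro i j hij
        obtain ⟨x, hx⟩ := hne' i
        obtain ⟨y, hy⟩ := hne' j
        obtain ⟨g1, g2, g3⟩ := hmem i x hx
        obtain ⟨g1', g2', g3'⟩ := hmem j y hy
        have g4 := hsep i j hij x g1 y g1'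
        have g6 : 9 * r ≤ |x - y| := by
          by_contra hcon
          push Not at hcon
          nlinarith
        rcases abs_cases (x - y) with g7 | g7 <;> rcases abs_cases (ce i - ce j) with g8 | g8 <;>
          omega
      have hdis : ∀ i ∈ (Finset.univ : Finset (Fin k)), ∀ j ∈ (Finset.univ : Finset (Fin k)),
          i ≠ j → Disjoint (RE (ce i - 3 * r) (ce i + 3 * r) 0 (3 * r))
            (RE (ce j - 3 * r) (ce j + 3 * r) 0 (3 * r)) := by
        intro i _ j _ hij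
        have g := hfar i j hij
        rw [Finset.disjoint_left]
        rintro ⟨x, y, bo⟩ k1 k2
        cases bo
        · rw [mem_RE_false] at k1 k2
          rcases abs_cases (ce i - ce j) with g8 | g8 <;> omega
        · rw [mem_RE_true] at k1 k2
          rcases abs_cases (ce i - ce j) with g8 | g8 <;> omega
      have t1 := indep_prod (Finset.univ : Finset (Fin k))
        (fun i => RE (ce i - 3 * r) (ce i + 3 * r) 0 (3 * r))
        (fun i => ArS (ce i) (3 * r) (cell r (S i) (f i))) hdis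
        (fun i _ => ArS_inc _ _ _) (fun i _ => ArS_loc _ _ _) (RE 0 b 0 m)
      have t2 : Pr P (RE 0 b 0 m) (fun F => ∀ i, Hit b m (cell r (S i) (f i)) F) ≤
          Pr P (RE 0 b 0 m) (fun F => ∀ i ∈ (Finset.univ : Finset (Fin k)),
            ArS (ce i) (3 * r) (cell r (S i) (f i)) F) := by
        refine Pr_mono okP ?_
        intro F _ hF i _
        refine Hit_ArS (by omega) (by omega) (fun x hx => ?_) (hF i)
        obtain ⟨_, g2, g3⟩ := hmem i x hx
        omega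
      have t3 : ∀ i, Pr P (RE (ce i - 3 * r) (ce i + 3 * r) 0 (3 * r))
          (ArS (ce i) (3 * r) (cell r (S i) (f i))) ≤ C / c3 * Cap b (S i) := by
        intro i
        have hsub : RE (ce i - 3 * r) (ce i + 3 * r) 0 (3 * r) ⊆ RE 0 b 0 m := by
          have := hpos i
          exact RE_subset (by omega) (by omega) le_rfl (by omega)
        have u1 : Pr P (RE 0 b 0 m) (ArS (ce i) (3 * r) (cell r (S i) (f i))) =
            Pr P (RE (ce i - 3 * r) (ce i + 3 * r) 0 (3 * r))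
              (ArS (ce i) (3 * r) (cell r (S i) (f i))) :=
          Pr_local hsub (fun F _ => ArS_loc _ _ _ F)
        have u2 := h3 b m (ce i) r hr1 hbr hmb (by omega) (hpos i).1 (hpos i).2
          (cell r (S i) (f i)) (fun x hx => (hmem i x hx).2)
        have u3 : Pr P (RE 0 b 0 m) (Hit b m (cell r (S i) (f i))) ≤
            Pr P (RE 0 b 0 m) (Hit b m (S i)) :=
          Pr_mono okP (fun F _ hF => Hit_mono (Finset.filter_subset _ _) hF)
        have u4 := (h1 b m hb hbm hmb (S i) (hS i)).2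
        rw [← u1, div_mul_eq_mul_div, le_div_iff₀ hc3]
        linarith
      refine t2.trans (t1.trans ?_)
      have t4 : (C / c3) ^ k * ∏ i, Cap b (S i) = ∏ i : Fin k, (C / c3 * Cap b (S i)) := by
        rw [Finset.prod_mul_distrib, Finset.prod_const, Finset.card_univ, Fintype.card_fin]
      rw [t4]
      exact Finset.prod_le_prod (fun i _ => Pr_nonneg okP _ _) (fun i _ => t3 i)
    have s4 := Finset.sum_le_card_nsmul Φ _ _ s3
    rw [nsmul_eq_mul, hΦc] at s4
    calc Pr P (RE 0 b 0 m) (fun F => ∀ i, Hit b m (S i) F)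
        ≤ (9 * κ + 1) ^ k * ((C / c3) ^ k * ∏ i, Cap b (S i)) := s1.trans (s2.trans s4)
      _ = B * ∏ i, Cap b (S i) := by rw [hB]; ring
      _ ≤ (A + B) * ∏ i, Cap b (S i) := mul_le_mul_of_nonneg_right (by linarith) hX

end Pool.Agent.Q216.CC.Multi
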