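import Pool.Agent.Q216.CC.Multi

/-!
Several sets of the left side and several sets of the right side of a (possibly long) rectangle:
the probability that one cluster meets all of them.
-/

set_option autoImplicit false
set_option maxHeartbeats 1000000

namespace Pool.Agent.Q216.CC.Multi

open H974 H973 H934E Finset
open Pool.Agent.TH966.GB Pool.Agent.H160R2.CV
open Pool.Agent.H160R2.CV.Quad
open Pool.Agent.TH966.CC

theorem pr_LHs {k : ℕ} (m h : ℤ) (S : Fin k → Finset ℤ) :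
    Pr P (RE 0 m 0 h) (fun F => ∀ i, LH m h (S i) F) =
      Pr P (RE 0 h 0 m) (fun F => ∀ i, Hit h m (S i) F) := by
  have h1 : tps.mp (RE 0 h 0 m) = RE 0 m 0 h := tps_RE _ _ _ _
  have h2 : Pr P (RE 0 m 0 h) (fun F => ∀ i, LH m h (S i) F) =
      Pr P (tps.mp (RE 0 h 0 m)) (fun F => ∀ i, LH m h (S i) F) := by rw [h1]
  rw [h2]
  change Pr (fun _ => (1/2 : ℝ)) _ _ = _
  rw [LSym.pr]
  apply Pr_congr
  intro F _
  have himg : tps.φ '' ((↑F : Set Edg) ∩ ↑(RE 0 h 0 m)) = ↑(tps.mp F) ∩ ↑(RE 0 m 0 h) := by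
    rw [LSym.image_inter, h1]
  refine forall_congr' (fun i => ?_)
  constructor
  · rintro ⟨s, hs, t, ht, hr⟩
    refine ⟨s, hs, t, ht, ?_⟩
    rw [← tps.reach_iff, himg]
    exact hr
  · rintro ⟨s, hs, t, ht, hr⟩
    refine ⟨s, hs, t, ht, ?_⟩
    rw [← tps.reach_iff, himg] at hr
    exact hr

theorem pr_RHs {k : ℕ} (w m h : ℤ) (S : Fin k → Finset ℤ) :
    Pr P (RE (w - m) w 0 h) (fun F => ∀ i, RH w m h (S i) F) =
      Pr P (RE 0 m 0 h) (fun F => ∀ i, LH m h (S i) F) := by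
  have h1 : (rfx w).mp (RE 0 m 0 h) = RE (w - m) w 0 h := by
    rw [rfx_RE, sub_zero]
  have h2 : Pr P (RE (w - m) w 0 h) (fun F => ∀ i, RH w m h (S i) F) =
      Pr P ((rfx w).mp (RE 0 m 0 h)) (fun F => ∀ i, RH w m h (S i) F) := by rw [h1]
  rw [h2]
  change Pr (fun _ => (1/2 : ℝ)) _ _ = _
  rw [LSym.pr]
  apply Pr_congr
  intro F _
  have himg : (rfx w).φ '' ((↑F : Set Edg) ∩ ↑(RE 0 m 0 h)) =
      ↑((rfx w).mp F) ∩ ↑(RE (w - m) w 0 h) := by
    rw [LSym.image_inter, h1]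
  refine forall_congr' (fun i => ?_)
  constructor
  · rintro ⟨s, hs, t, ht, hr⟩
    refine ⟨s, hs, t, ht, ?_⟩
    rw [← (rfx w).reach_iff, himg, rfx_ψ, rfx_ψ, sub_zero]
    exact hr
  · rintro ⟨s, hs, t, ht, hr⟩
    refine ⟨s, hs, t, ht, ?_⟩
    rw [← (rfx w).reach_iff, himg, rfx_ψ, rfx_ψ, sub_zero] at hr
    exact hr

theorem LHs_inc {k : ℕ} (m h : ℤ) (S : Fin k → Finset ℤ) : IncA (fun F => ∀ i, LH m h (S i) F) :=
  fun F G hFG hF i => LH_inc m h (S i) F G hFG (hF i)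

theorem RHs_inc {k : ℕ} (w m h : ℤ) (S : Fin k → Finset ℤ) :
    IncA (fun F => ∀ i, RH w m h (S i) F) :=
  fun F G hFG hF i => RH_inc w m h (S i) F G hFG (hF i)

theorem LHs_loc {k : ℕ} (m h : ℤ) (S : Fin k → Finset ℤ) :
    LocE (RE 0 m 0 h) (fun F => ∀ i, LH m h (S i) F) :=
  fun F => forall_congr' (fun i => LH_loc m h (S i) F)

theorem RHs_loc {k : ℕ} (w m h : ℤ) (S : Fin k → Finset ℤ) :
    LocE (RE (w - m) w 0 h) (fun F => ∀ i, RH w m h (S i) F) :=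
  fun F => forall_congr' (fun i => RH_loc w m h (S i) F)

theorem pr_LHs' {k : ℕ} {w m h : ℤ} (hm : m ≤ w) (S : Fin k → Finset ℤ) :
    Pr P (RE 0 w 0 h) (fun F => ∀ i, LH m h (S i) F) =
      Pr P (RE 0 h 0 m) (fun F => ∀ i, Hit h m (S i) F) := by
  rw [← pr_LHs]
  exact Pr_local (RE_subset le_rfl hm le_rfl le_rfl) (fun F _ => LHs_loc m h S F)

theorem pr_RHs' {k : ℕ} {w m h : ℤ} (hm : m ≤ w) (S : Fin k → Finset ℤ) :
    Pr P (RE 0 w 0 h) (fun F => ∀ i, RH w m h (S i) F) =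
      Pr P (RE 0 h 0 m) (fun F => ∀ i, Hit h m (S i) F) := by
  rw [← pr_LHs, ← pr_RHs w m h S]
  exact Pr_local (RE_subset (by omega) le_rfl le_rfl le_rfl) (fun F _ => RHs_loc w m h S F)

/-- One cluster meets all the sets `S i` of the left side and all the sets `T j` of the right
side. -/
def Crs {k l : ℕ} (w h : ℤ) (S : Fin k → Finset ℤ) (T : Fin l → Finset ℤ) (F : Finset Edg) :
    Prop :=
  ∃ v : Vtx, (∀ i, ∃ s ∈ S i, Reach (↑F ∩ ↑(RE 0 w 0 h)) (0, s) v) ∧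
    ∀ j, ∃ t ∈ T j, Reach (↑F ∩ ↑(RE 0 w 0 h)) (w, t) v

/-- Deterministic gluing. -/
theorem joins {k l : ℕ} {w m h : ℤ} {S : Fin k → Finset ℤ} {T : Fin l → Finset ℤ}
    {F : Finset Edg} (hm : 1 ≤ m) (hmw : m ≤ w) (hh : 1 ≤ h)
    (h1 : ∀ i, LH m h (S i) F) (h2 : TBc 0 m 0 h F) (h3 : LRc 0 w 0 h F)
    (h4 : TBc (w - m) w 0 h F) (h5 : ∀ j, RH w m h (T j) F) : Crs w h S T F := by
  obtain ⟨x, x', hx, hx', hv⟩ := h2
  obtain ⟨z, z', hz, hz', hv'⟩ := h4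
  obtain ⟨y, y', hy, hy', hl⟩ := h3
  have k0 : (↑F : Set Edg) ∩ ↑(RE 0 m 0 h) ⊆ ↑F ∩ ↑(RE 0 w 0 h) :=
    Set.inter_subset_inter_right _ (by exact_mod_cast RE_subset le_rfl hmw le_rfl le_rfl)
  have k0' : (↑F : Set Edg) ∩ ↑(RE (w - m) w 0 h) ⊆ ↑F ∩ ↑(RE 0 w 0 h) :=
    Set.inter_subset_inter_right _ (by exact_mod_cast RE_subset (by omega) le_rfl le_rfl le_rfl)
  have hv1 : Reach (↑F ∩ ↑(RE 0 m 0 h)) (x, 0) (x', h) :=
    hv.mono (Set.inter_subset_inter_right _ (by exact_mod_cast TBE_sub _ _ _ _))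
  have hv2 : Reach (↑F ∩ ↑(RE (w - m) w 0 h)) (z, 0) (z', h) :=
    hv'.mono (Set.inter_subset_inter_right _ (by exact_mod_cast TBE_sub _ _ _ _))
  have hl1 : Reach (↑F ∩ ↑(RE 0 w 0 h)) (0, y) (w, y') :=
    hl.mono (Set.inter_subset_inter_right _ (by exact_mod_cast LRE_subset_RE))
  have a2 := cross_meet (F := ↑F) (A := 0) (B := w) (C := 0) (D := h) (a := 0) (b := m) (c := 0)
    (d := h) le_rfl (by omega) hmw le_rfl (by omega) le_rfl hl1 le_rfl (by simp only; omega)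
    hv1 le_rfl le_rfl
  have a3 := cross_meet (F := ↑F) (A := 0) (B := w) (C := 0) (D := h) (a := w - m) (b := w)
    (c := 0) (d := h) (by omega) (by omega) le_rfl le_rfl (by omega) le_rfl hl1
    (by simp only; omega) le_rfl hv2 le_rfl le_rfl
  refine ⟨(x, 0), fun i => ?_, fun j => ?_⟩
  · obtain ⟨s, hs, t, ht, hr⟩ := h1 i
    have a1 := cross_meet (F := ↑F) (A := 0) (B := m) (C := 0) (D := h) (a := 0) (b := m) (c := 0)
      (d := h) le_rfl (by omega) le_rfl le_rfl (by omega) le_rfl hr le_rfl le_rfl hv1 le_rfl le_rfl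
    exact ⟨s, hs, a1.mono k0⟩
  · obtain ⟨s', hs', t', ht', hr'⟩ := h5 j
    have a4 := cross_meet (F := ↑F) (A := w - m) (B := w) (C := 0) (D := h) (a := w - m) (b := w)
      (c := 0) (d := h) le_rfl (by omega) le_rfl le_rfl (by omega) le_rfl hr'.symm
      le_rfl le_rfl hv2 le_rfl le_rfl
    exact ⟨s', hs', ((hr'.mono k0').trans (a4.mono k0')).trans (a3.symm.trans a2)⟩

theorem hmul' {U : Finset Edg} {A B : Finset Edg → Prop} (hA : IncA A) (hB : IncA B) :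
    Pr P U A * Pr P U B ≤ Pr P U (fun F => A F ∧ B F) :=
  Pr_harris okP (fun F G h _ hF => hA F G h hF) (fun F G h _ hF => hB F G h hF)

/-- **Several sets on two sides, lower bound.** -/
theorem crs_low (κ : ℕ) (hκ : 1 ≤ κ) (k l : ℕ) : ∃ c : ℝ, 0 < c ∧ ∀ w h : ℤ, 1 ≤ w → 1 ≤ h →
    h ≤ κ * w → ∀ (S : Fin k → Finset ℤ) (T : Fin l → Finset ℤ),
    (∀ i, ∀ x ∈ S i, Mid κ h x) → (∀ i, ∀ x ∈ T i, Mid κ h x) →
    c * (hh (1/2) w h * (∏ i, Cap h (S i)) * ∏ j, Cap h (T j)) ≤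
      Pr P (RE 0 w 0 h) (Crs w h S T) := by
  have hκ' : (1 : ℤ) ≤ κ := by exact_mod_cast hκ
  obtain ⟨c, hc, h1⟩ := multi_low κ hκ' k
  obtain ⟨c', hc', h1'⟩ := multi_low κ hκ' l
  obtain ⟨c2, hc2, h2⟩ := rsw_all κ
  refine ⟨c * c2 * c2 * c', by positivity, fun w h hw hh1 hhw S T hS hT => ?_⟩
  obtain ⟨m, hm⟩ : ∃ m, m = min w h := ⟨_, rfl⟩
  have hm1 : 1 ≤ m := by rw [hm]; exact le_min hw hh1
  have hmw : m ≤ w := by rw [hm]; exact min_le_left _ _
  have hmh : m ≤ h := by rw [hm]; exact min_le_right _ _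
  have hhm : h ≤ κ * m := by
    rw [hm]
    rcases min_choice w h with h3 | h3
    · rw [h3]; exact hhw
    · rw [h3]; nlinarith
  have hmk : m ≤ κ * h := by nlinarith
  have a1 := h1 h m hh1 hhm hmk S hS
  have a5 := h1' h m hh1 hhm hmk T hT
  rw [← pr_LHs' hmw] at a1
  rw [← pr_RHs' hmw] at a5
  have sL : LRE 0 w 0 h ⊆ RE 0 w 0 h := LRE_subset_RE
  have s2 : TBE 0 m 0 h ⊆ RE 0 w 0 h :=
    TBE_subset_RE.trans (RE_subset le_rfl hmw le_rfl le_rfl)
  have s4 : TBE (w - m) w 0 h ⊆ RE 0 w 0 h :=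
    TBE_subset_RE.trans (RE_subset (by omega) le_rfl le_rfl le_rfl)
  have b2 : c2 ≤ Pr P (RE 0 w 0 h) (TBc 0 m 0 h) := by
    have e : Pr P (RE 0 w 0 h) (TBc 0 m 0 h) = hh (1/2) (h - 0) (m - 0) := pr_TBc (1/2) s2
    rw [e, sub_zero, sub_zero]
    exact h2 h m hm1 (by omega) hhm
  have b4 : c2 ≤ Pr P (RE 0 w 0 h) (TBc (w - m) w 0 h) := by
    have e : Pr P (RE 0 w 0 h) (TBc (w - m) w 0 h) = hh (1/2) (h - 0) (w - (w - m)) :=
      pr_TBc (1/2) s4
    rw [e, sub_zero, sub_sub_cancel]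
    exact h2 h m hm1 (by omega) hhm
  have b3 : Pr P (RE 0 w 0 h) (LRc 0 w 0 h) = hh (1/2) w h := by
    have := pr_LRc (1/2) sL
    rw [sub_zero, sub_zero] at this
    exact this
  have hnn := hh_nonneg (q := 1/2) (by norm_num) (by norm_num) w h
  obtain ⟨X, hX⟩ : ∃ X : ℝ, X = ∏ i, Cap h (S i) := ⟨_, rfl⟩
  obtain ⟨Y, hY⟩ : ∃ Y : ℝ, Y = ∏ j, Cap h (T j) := ⟨_, rfl⟩
  have capS : 0 ≤ X := by
    rw [hX]; exact Finset.prod_nonneg (fun i _ => Cap_nonneg κ hκ' (show 0 ≤ h by omega) (hS i))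
  have capT : 0 ≤ Y := by
    rw [hY]; exact Finset.prod_nonneg (fun i _ => Cap_nonneg κ hκ' (show 0 ≤ h by omega) (hT i))
  rw [← hX] at a1
  rw [← hY] at a5
  rw [← hX, ← hY]
  set U := RE 0 w 0 h with hU
  have i1 := LHs_inc m h S
  have i5 := RHs_inc w m h T
  have i2 : IncA (TBc 0 m 0 h) := TBc_inc _ _ _ _
  have i4 : IncA (TBc (w - m) w 0 h) := TBc_inc _ _ _ _
  have i3 : IncA (LRc 0 w 0 h) := LRc_inc _ _ _ _
  have j1 := hmul' (U := U) i1 i2
  have i12 : IncA (fun F => (∀ i, LH m h (S i) F) ∧ TBc 0 m 0 h F) :=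
    fun F G hh hF => ⟨i1 F G hh hF.1, i2 F G hh hF.2⟩
  have j2 := hmul' (U := U) i12 i3
  have i123 : IncA (fun F => ((∀ i, LH m h (S i) F) ∧ TBc 0 m 0 h F) ∧ LRc 0 w 0 h F) :=
    fun F G hh hF => ⟨i12 F G hh hF.1, i3 F G hh hF.2⟩
  have j3 := hmul' (U := U) i123 i4
  have i1234 : IncA (fun F => (((∀ i, LH m h (S i) F) ∧ TBc 0 m 0 h F) ∧ LRc 0 w 0 h F) ∧
      TBc (w - m) w 0 h F) :=
    fun F G hh hF => ⟨i123 F G hh hF.1, i4 F G hh hF.2⟩
  have j4 := hmul' (U := U) i1234 i5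
  have nn : ∀ A : Finset Edg → Prop, 0 ≤ Pr P U A := fun A => Pr_nonneg okP _ _
  have e1 : c * X * c2 ≤ Pr P U (fun F => (∀ i, LH m h (S i) F) ∧ TBc 0 m 0 h F) :=
    le_trans (mul_le_mul a1 b2 hc2.le (nn _)) j1
  have e2 : c * X * c2 * hh (1/2) w h ≤
      Pr P U (fun F => ((∀ i, LH m h (S i) F) ∧ TBc 0 m 0 h F) ∧ LRc 0 w 0 h F) :=
    le_trans (mul_le_mul e1 b3.ge hnn (nn _)) j2
  have e3 : c * X * c2 * hh (1/2) w h * c2 ≤
      Pr P U (fun F => (((∀ i, LH m h (S i) F) ∧ TBc 0 m 0 h F) ∧ LRc 0 w 0 h F) ∧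
        TBc (w - m) w 0 h F) :=
    le_trans (mul_le_mul e2 b4 hc2.le (nn _)) j3
  have e4 := le_trans (mul_le_mul e3 a5 (by positivity) (nn _)) j4
  calc c * c2 * c2 * c' * (hh (1/2) w h * X * Y) =
      c * X * c2 * hh (1/2) w h * c2 * (c' * Y) := by ring
    _ ≤ _ := e4
    _ ≤ _ := Pr_mono okP (by
        rintro F _ ⟨⟨⟨⟨g1, g2⟩, g3⟩, g4⟩, g5⟩
        exact joins hm1 hmw hh1 g1 g2 g3 g4 g5)

theorem pr_zero {U : Finset Edg} {A : Finset Edg → Prop} (h : ∀ F, ¬ A F) : Pr P U A = 0 := by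
  unfold Pr
  rw [Ex_congr (g := fun _ => 0) (fun F _ => ind_not_of (h F)), Ex_const]

/-- **Several sets on two sides, upper bound.** -/
theorem crs_up (κ : ℕ) (hκ : 1 ≤ κ) (k l : ℕ) : ∃ C : ℝ, 0 < C ∧ ∀ w h : ℤ, 1 ≤ w → 1 ≤ h →
    h ≤ κ * w → ∀ (S : Fin (k + 1) → Finset ℤ) (T : Fin (l + 1) → Finset ℤ),
    (∀ i, ∀ x ∈ S i, Mid κ h x) → (∀ i, ∀ x ∈ T i, Mid κ h x) →
    (∀ i j, i ≠ j → ∀ x ∈ S i, ∀ y ∈ S j, h ≤ κ * |x - y|) →
    (∀ i j, i ≠ j → ∀ x ∈ T i, ∀ y ∈ T j, h ≤ κ * |x - y|) →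
    Pr P (RE 0 w 0 h) (Crs w h S T) ≤
      C * (hh (1/2) w h * (∏ i, Cap h (S i)) * ∏ j, Cap h (T j)) := by
  have hκ' : (1 : ℤ) ≤ κ := by exact_mod_cast hκ
  have hκ6 : 1 ≤ 6 * κ := by omega
  obtain ⟨C, hC, h1⟩ := multi_up (6 * κ) hκ6 (k + 1)
  obtain ⟨C', hC', h1'⟩ := multi_up (6 * κ) hκ6 (l + 1)
  obtain ⟨c3, hc3, h3⟩ := rsw_all 3
  obtain ⟨c6, hc6, h6⟩ := rsw_all (6 * κ)
  obtain ⟨c0, hc0, h0⟩ := Cap_low κ hκ'
  have hκ0 : (0 : ℝ) < κ := by exact_mod_cast (by omega : 0 < κ)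
  have hq2 := q_pos (n := 2 * κ) (by omega)
  obtain ⟨A, hA⟩ : ∃ A : ℝ, A = C * C' / (c3 * c6) := ⟨_, rfl⟩
  obtain ⟨B, hB⟩ : ∃ B : ℝ, B = 1 / (c3 * ((c0 * q (2 * κ)) ^ (k + 1) *
    (c0 * q (2 * κ)) ^ (l + 1))) := ⟨_, rfl⟩
  have hA0 : 0 < A := by rw [hA]; positivity
  have hB0 : 0 < B := by rw [hB]; positivity
  refine ⟨A + B, by positivity, fun w h hw hh1 hhw S T hS hT hSs hTs => ?_⟩
  obtain ⟨X, hX⟩ : ∃ X : ℝ, X = ∏ i, Cap h (S i) := ⟨_, rfl⟩
  obtain ⟨Y, hY⟩ : ∃ Y : ℝ, Y = ∏ j, Cap h (T j) := ⟨_, rfl⟩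
  have capS : 0 ≤ X := by
    rw [hX]; exact Finset.prod_nonneg (fun i _ => Cap_nonneg κ hκ' (show 0 ≤ h by omega) (hS i))
  have capT : 0 ≤ Y := by
    rw [hY]; exact Finset.prod_nonneg (fun i _ => Cap_nonneg κ hκ' (show 0 ≤ h by omega) (hT i))
  have hnn := hh_nonneg (q := 1/2) (by norm_num) (by norm_num) w h
  have hXY : 0 ≤ hh (1/2) w h * X * Y := by positivity
  rw [← hX, ← hY]
  by_cases he : ∀ i, (S i).Nonempty
  swap
  · push Not at he
    obtain ⟨i, hi⟩ := he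
    rw [pr_zero (fun F hF => ?_)]
    · positivity
    · obtain ⟨v, g1, _⟩ := hF
      obtain ⟨s, hs, _⟩ := g1 i
      rw [hi] at hs
      simp at hs
  by_cases he' : ∀ i, (T i).Nonempty
  swap
  · push Not at he'
    obtain ⟨i, hi⟩ := he'
    rw [pr_zero (fun F hF => ?_)]
    · positivity
    · obtain ⟨v, _, g1⟩ := hF
      obtain ⟨s, hs, _⟩ := g1 i
      rw [hi] at hs
      simp at hs
  rcases lt_or_ge w 3 with hw3 | hw3
  · -- thin rectangles
    have hhk : h ≤ 2 * κ := by nlinarith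
    have f1 : (c0 * q (2 * κ)) ^ (k + 1) ≤ X := by
      have : (c0 * q (2 * κ)) ^ (k + 1) = ∏ i : Fin (k + 1), (c0 * q (2 * κ)) := by
        rw [Finset.prod_const, Finset.card_univ, Fintype.card_fin]
      rw [this, hX]
      apply Finset.prod_le_prod
      · intro i _
        positivity
      · intro i _
        refine le_trans ?_ (h0 h hh1 (S i) (hS i) (he i))
        exact mul_le_mul_of_nonneg_left (q_anti (by omega) hhk) hc0.le
    have f2 : (c0 * q (2 * κ)) ^ (l + 1) ≤ Y := by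
      have : (c0 * q (2 * κ)) ^ (l + 1) = ∏ i : Fin (l + 1), (c0 * q (2 * κ)) := by
        rw [Finset.prod_const, Finset.card_univ, Fintype.card_fin]
      rw [this, hY]
      apply Finset.prod_le_prod
      · intro i _
        positivity
      · intro i _
        refine le_trans ?_ (h0 h hh1 (T i) (hT i) (he' i))
        exact mul_le_mul_of_nonneg_left (q_anti (by omega) hhk) hc0.le
    have f3 := h3 w h hh1 (by omega) (by push_cast; omega)
    have g1 : (c0 * q (2 * κ)) ^ (k + 1) * (c0 * q (2 * κ)) ^ (l + 1) ≤ X * Y :=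
      mul_le_mul f1 f2 (by positivity) capS
    have g2 : c3 * ((c0 * q (2 * κ)) ^ (k + 1) * (c0 * q (2 * κ)) ^ (l + 1)) ≤
        hh (1/2) w h * (X * Y) := mul_le_mul f3 g1 (by positivity) hnn
    have g3 : 1 ≤ B * (hh (1/2) w h * X * Y) := by
      calc (1 : ℝ) = B * (c3 * ((c0 * q (2 * κ)) ^ (k + 1) * (c0 * q (2 * κ)) ^ (l + 1))) := by
            rw [hB, one_div, inv_mul_cancel₀ (by positivity)]
        _ ≤ B * (hh (1/2) w h * (X * Y)) := mul_le_mul_of_nonneg_left g2 hB0.le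
        _ = _ := by ring
    calc Pr P (RE 0 w 0 h) (Crs w h S T) ≤ 1 := Pr_le_one okP _ _
      _ ≤ B * (hh (1/2) w h * X * Y) := g3
      _ ≤ (A + B) * (hh (1/2) w h * X * Y) :=
        mul_le_mul_of_nonneg_right (by linarith) hXY
  · obtain ⟨m, hm⟩ : ∃ m, m = min (w / 3) h := ⟨_, rfl⟩
    have hm1 : 1 ≤ m := by rw [hm]; exact le_min (by omega) hh1
    have hmw : 3 * m ≤ w := by
      have : m ≤ w / 3 := by rw [hm]; exact min_le_left _ _
      omega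
    have hmh : m ≤ h := by rw [hm]; exact min_le_right _ _
    have hhm : h ≤ 6 * κ * m := by
      rw [hm]
      rcases min_choice (w / 3) h with h4 | h4
      · rw [h4]
        have h5 : w ≤ 6 * (w / 3) := by omega
        calc h ≤ κ * w := hhw
          _ ≤ κ * (6 * (w / 3)) := mul_le_mul_of_nonneg_left h5 (by omega)
          _ = 6 * κ * (w / 3) := by ring
      · rw [h4]
        nlinarith
    have hmk : m ≤ 6 * κ * h := by nlinarith
    have hS6 : ∀ i, ∀ x ∈ S i, Mid ((6 * κ : ℕ) : ℤ) h x := by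
      intro i x hx
      obtain ⟨u1, u2⟩ := hS i x hx
      obtain ⟨u3, u4⟩ := (hS i x hx).pos hκ' (by omega)
      push_cast
      exact ⟨by nlinarith, by nlinarith⟩
    have hT6 : ∀ i, ∀ x ∈ T i, Mid ((6 * κ : ℕ) : ℤ) h x := by
      intro i x hx
      obtain ⟨u1, u2⟩ := hT i x hx
      obtain ⟨u3, u4⟩ := (hT i x hx).pos hκ' (by omega)
      push_cast
      exact ⟨by nlinarith, by nlinarith⟩
    have hSs6 : ∀ i j, i ≠ j → ∀ x ∈ S i, ∀ y ∈ S j, h ≤ ((6 * κ : ℕ) : ℤ) * |x - y| := by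
      intro i j hij x hx y hy
      have := hSs i j hij x hx y hy
      have h8 := abs_nonneg (x - y)
      push_cast
      nlinarith
    have hTs6 : ∀ i j, i ≠ j → ∀ x ∈ T i, ∀ y ∈ T j, h ≤ ((6 * κ : ℕ) : ℤ) * |x - y| := by
      intro i j hij x hx y hy
      have := hTs i j hij x hx y hy
      have h8 := abs_nonneg (x - y)
      push_cast
      nlinarith
    have a1 := h1 h m hh1 (by push_cast; exact hhm) (by push_cast; exact hmk) S hS6 hSs6
    have a5 := h1' h m hh1 (by push_cast; exact hhm) (by push_cast; exact hmk) T hT6 hTs6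
    rw [← pr_LHs, ← hX] at a1
    rw [← pr_LHs, ← pr_RHs w m h T, ← hY] at a5
    have hp1 : Pr P (LRE m (w - m) 0 h) (LRc m (w - m) 0 h) = hh (1/2) (w - 2 * m) h := by
      have := pr_LRc (1/2) (Finset.Subset.refl (LRE m (w - m) 0 h))
      rw [show w - m - m = w - 2 * m by ring, sub_zero] at this
      exact this
    have d1 : Disjoint (RE 0 m 0 h) (LRE m (w - m) 0 h ∪ RE (w - m) w 0 h) := by
      rw [Finset.disjoint_left]
      rintro ⟨x, y, bo⟩ k1 k2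
      rw [Finset.mem_union] at k2
      cases bo
      · rw [mem_RE_false] at k1 k2
        rw [mem_LRE_false] at k2
        omega
      · rw [mem_RE_true] at k1 k2
        rw [mem_LRE_true] at k2
        omega
    have d2 : Disjoint (LRE m (w - m) 0 h) (RE (w - m) w 0 h) := by
      rw [Finset.disjoint_left]
      rintro ⟨x, y, bo⟩ k1 k2
      cases bo
      · rw [mem_RE_false] at k2
        rw [mem_LRE_false] at k1
        omega
      · rw [mem_RE_true] at k2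
        rw [mem_LRE_true] at k1
        omega
    have inc2 : IncA (fun F => LRc m (w - m) 0 h F ∧ ∀ j, RH w m h (T j) F) :=
      fun F G hFG hF => ⟨hF.1.mono hFG, RHs_inc w m h T F G hFG hF.2⟩
    have loc2 : LocE (LRE m (w - m) 0 h ∪ RE (w - m) w 0 h)
        (fun F => LRc m (w - m) 0 h F ∧ ∀ j, RH w m h (T j) F) := by
      intro F
      show (LRc m (w - m) 0 h F ∧ ∀ j, RH w m h (T j) F) ↔
        (LRc m (w - m) 0 h (F ∩ (LRE m (w - m) 0 h ∪ RE (w - m) w 0 h)) ∧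
          ∀ j, RH w m h (T j) (F ∩ (LRE m (w - m) 0 h ∪ RE (w - m) w 0 h)))
      have r1 := RHs_loc w m h T F
      have r2 := RHs_loc w m h T (F ∩ (LRE m (w - m) 0 h ∪ RE (w - m) w 0 h))
      have e1 : F ∩ (LRE m (w - m) 0 h ∪ RE (w - m) w 0 h) ∩ LRE m (w - m) 0 h =
          F ∩ LRE m (w - m) 0 h := by
        ext e; simp only [Finset.mem_inter, Finset.mem_union]; tauto
      have e2 : F ∩ (LRE m (w - m) 0 h ∪ RE (w - m) w 0 h) ∩ RE (w - m) w 0 h =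
          F ∩ RE (w - m) w 0 h := by
        ext e; simp only [Finset.mem_inter, Finset.mem_union]; tauto
      rw [LRc_loc m (w - m) 0 h F,
        LRc_loc m (w - m) 0 h (F ∩ (LRE m (w - m) 0 h ∪ RE (w - m) w 0 h)), e1]
      rw [e2] at r2
      exact and_congr_right (fun _ => r1.trans r2.symm)
    have k1 : Pr P (RE 0 w 0 h) (Crs w h S T) ≤
        Pr P (RE 0 w 0 h) (fun F => (∀ i, LH m h (S i) F) ∧
          (LRc m (w - m) 0 h F ∧ ∀ j, RH w m h (T j) F)) := by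
      refine Pr_mono okP (fun F _ hF => ?_)
      obtain ⟨v, g1, g2⟩ := hF
      have hcut : ∀ i j, LH m h (S i) F ∧ LRc m (w - m) 0 h F ∧ RH w m h (T j) F := by
        intro i j
        obtain ⟨s, hs, r1⟩ := g1 i
        obtain ⟨t, ht, r2⟩ := g2 j
        exact cut hm1 hmw (fun x hx => (hS i x hx).pos hκ' (by omega))
          (fun x hx => (hT j x hx).pos hκ' (by omega)) ⟨s, hs, t, ht, r1.trans r2.symm⟩
      exact ⟨fun i => (hcut i 0).1, (hcut 0 0).2.1, fun j => (hcut 0 j).2.2⟩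
    have k2 := indep2 (RE 0 w 0 h) _ _ d1 (LHs_inc m h S) inc2 (LHs_loc m h S) loc2
    have k3 := indep2 (LRE m (w - m) 0 h ∪ RE (w - m) w 0 h) _ _ d2 (LRc_inc m (w - m) 0 h)
      (RHs_inc w m h T) (LRc_loc m (w - m) 0 h) (RHs_loc w m h T)
    rw [hp1] at k3
    have g1 := hh_glue (q := 1/2) (by norm_num) (by norm_num) (w1 := w - 2 * m) (w2 := 3 * m)
      (v := m) (h := h) (by omega) (by omega) (by omega) (by omega)
    rw [show w - 2 * m + 3 * m - m = w by ring] at g1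
    have f3 := h3 (3 * m) h hh1 (by omega) (by push_cast; omega)
    have f6 := h6 h m hm1 (by omega) (by push_cast; exact hhm)
    have hn2 := hh_nonneg (q := 1/2) (by norm_num) (by norm_num) (w - 2 * m) h
    have g2 : hh (1/2) (w - 2 * m) h * (c3 * c6) ≤ hh (1/2) w h := by
      refine le_trans ?_ g1
      rw [mul_assoc]
      apply mul_le_mul_of_nonneg_left _ hn2
      exact mul_le_mul f3 f6 hc6.le (hh_nonneg (by norm_num) (by norm_num) _ _)
    have hp0 : 0 ≤ Pr P (RE 0 m 0 h) (fun F => ∀ i, LH m h (S i) F) := Pr_nonneg okP _ _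
    calc Pr P (RE 0 w 0 h) (Crs w h S T)
        ≤ Pr P (RE 0 m 0 h) (fun F => ∀ i, LH m h (S i) F) * (hh (1/2) (w - 2 * m) h *
          Pr P (RE (w - m) w 0 h) (fun F => ∀ j, RH w m h (T j) F)) :=
          k1.trans (k2.trans (mul_le_mul_of_nonneg_left k3 hp0))
      _ ≤ (C * X) * (hh (1/2) (w - 2 * m) h * (C' * Y)) := by
          apply mul_le_mul a1 (mul_le_mul_of_nonneg_left a5 hn2) _ (by positivity)
          exact mul_nonneg hn2 (Pr_nonneg okP _ _)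
      _ = A * ((hh (1/2) (w - 2 * m) h * (c3 * c6)) * X * Y) := by
          rw [hA]; field_simp
      _ ≤ A * (hh (1/2) w h * X * Y) := by
          apply mul_le_mul_of_nonneg_left _ hA0.le
          apply mul_le_mul_of_nonneg_right _ capT
          exact mul_le_mul_of_nonneg_right g2 capS
      _ ≤ (A + B) * (hh (1/2) w h * X * Y) :=
          mul_le_mul_of_nonneg_right (by linarith) hXY

end Pool.Agent.Q216.CC.Multi
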